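import Pool.Agent.Y192.FA.GDefsP

/-!
The projective case: from the linear bound for one model to all projective varieties with the same
function field.
-/

set_option autoImplicit false

namespace Pool.Agent.Y824.FG

open MvPolynomial FF Pool.Agent.W603.LV Pool.Agent.W603.PV Pool.Agent.Y192.FA
open Pool.Agent.Y192.KC (Cov ZCov ZField Poly WH)
open Pool.Agent.W602.GT (val IsForm coords)
open Pool.Agent.Y216 (OnVar CurveBound)

/-- clearing denominators -/
theorem clear {ι κ : Type} (Q : MvPolynomial ι ℂ) (R : κ → MvPolynomial ι ℂ)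
    (B : MvPolynomial κ ℂ) :
    ∃ (K : ℕ) (B' : MvPolynomial ι ℂ), ∀ (M : Type) [Field M] [Algebra ℂ M] (f : ι → M),
      aeval f Q ≠ 0 →
        aeval f B' = aeval f Q ^ K * aeval (fun a => aeval f (R a) / aeval f Q) B := by
  induction B using MvPolynomial.induction_on with
  | C a => exact ⟨0, C a, fun M _ _ f _ => by rw [pow_zero, one_mul, algHom_C, algHom_C]⟩
  | add p q hp hq =>
    obtain ⟨K1, B1, h1⟩ := hp
    obtain ⟨K2, B2, h2⟩ := hq
    refine ⟨K1 + K2, B1 * Q ^ K2 + B2 * Q ^ K1, fun M _ _ f hf => ?_⟩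
    rw [map_add, map_mul, map_mul, map_pow, map_pow, h1 M f hf, h2 M f hf, map_add]
    ring
  | mul_X p a hp =>
    obtain ⟨K, B, h⟩ := hp
    refine ⟨K + 1, B * R a, fun M _ _ f hf => ?_⟩
    rw [map_mul, h M f hf, map_mul, aeval_X]
    field_simp
    ring

/-- homogenization -/
theorem homog {N : ℕ} (i0 : Fin (N + 1)) (B : MvPolynomial (Fin (N + 1)) ℂ) :
    ∃ (K : ℕ) (B' : MvPolynomial (Fin (N + 1)) ℂ), B'.IsHomogeneous K ∧
      ∀ (M : Type) [Field M] [Algebra ℂ M] (f : Fin (N + 1) → M), f i0 ≠ 0 →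
        aeval f B' = f i0 ^ K * aeval (fun a => f a / f i0) B := by
  induction B using MvPolynomial.induction_on with
  | C a => exact ⟨0, C a, isHomogeneous_C _ _, fun M _ _ f _ => by
      rw [pow_zero, one_mul, algHom_C, algHom_C]⟩
  | add p q hp hq =>
    obtain ⟨K1, B1, g1, h1⟩ := hp
    obtain ⟨K2, B2, g2, h2⟩ := hq
    have e1 : (B1 * X i0 ^ K2).IsHomogeneous (K1 + K2) := by
      have := g1.mul (isHomogeneous_X_pow (R := ℂ) i0 K2)
      exact this
    have e2 : (B2 * X i0 ^ K1).IsHomogeneous (K1 + K2) := by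
      have := g2.mul (isHomogeneous_X_pow (R := ℂ) i0 K1)
      rwa [add_comm K2 K1] at this
    refine ⟨K1 + K2, B1 * X i0 ^ K2 + B2 * X i0 ^ K1, e1.add e2, fun M _ _ f hf => ?_⟩
    rw [map_add, map_mul, map_mul, map_pow, map_pow, aeval_X, h1 M f hf, h2 M f hf, map_add]
    ring
  | mul_X p a hp =>
    obtain ⟨K, B, g, h⟩ := hp
    refine ⟨K + 1, B * X a, g.mul (isHomogeneous_X ℂ a), fun M _ _ f hf => ?_⟩
    rw [map_mul, h M f hf, map_mul, aeval_X, aeval_X]
    field_simp
    ring

/-- `x'` is a specialization of `x` -/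
def Sp {ι L M : Type} [Field L] [Algebra ℂ L] [Field M] [Algebra ℂ M] (x : ι → L) (x' : ι → M) :
    Prop := ∀ H : MvPolynomial ι ℂ, aeval x H = 0 → aeval x' H = 0

theorem sp_of_onVar {N : ℕ} {L M : Type} [Field L] [Algebra ℂ L] [Field M] [Algebra ℂ M]
    {y : Fin (N + 1) → L} {f : Fin (N + 1) → M} (h : OnVar ℂ y f) {i0 : Fin (N + 1)}
    (hy : y i0 ≠ 0) (hf : f i0 ≠ 0) : Sp (fun i => y i / y i0) (fun i => f i / f i0) := by
  intro H hH
  obtain ⟨K, B, g, hB⟩ := homog i0 H
  have h1 : val y B = 0 := by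
    unfold val
    rw [hB L y hy, hH, mul_zero]
  have h2 := h.2 B ⟨K, g⟩ h1
  unfold val at h2
  rw [hB M f hf] at h2
  exact (mul_eq_zero.1 h2).resolve_left (pow_ne_zero _ hf)

theorem Sp.ratio {ι κ L M : Type} [Field L] [Algebra ℂ L] [Field M] [Algebra ℂ M] {x : ι → L}
    {x' : ι → M} (h : Sp x x') (Q : MvPolynomial ι ℂ) (R : κ → MvPolynomial ι ℂ)
    (hQ : aeval x Q ≠ 0) (hQ' : aeval x' Q ≠ 0) :
    Sp (fun a => aeval x (R a) / aeval x Q) (fun a => aeval x' (R a) / aeval x' Q) := by
  intro H hH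
  obtain ⟨K, B, hB⟩ := clear Q R H
  have h1 : aeval x B = 0 := by rw [hB L x hQ, hH, mul_zero]
  have h2 := h B h1
  rw [hB M x' hQ'] at h2
  exact (mul_eq_zero.1 h2).resolve_left (pow_ne_zero _ hQ')

/-- common denominators -/
theorem common {ι κ : Type} [Fintype κ] {L : Type} [Field L] [Algebra ℂ L] (x : ι → L)
    (hx : IntermediateField.adjoin ℂ (Set.range x) = ⊤) (z : κ → L) :
    ∃ (Q : MvPolynomial ι ℂ) (R : κ → MvPolynomial ι ℂ), aeval x Q ≠ 0 ∧
      ∀ a, z a = aeval x (R a) / aeval x Q := by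
  classical
  have h1 : ∀ a, ∃ P Q : MvPolynomial ι ℂ, aeval x Q ≠ 0 ∧ z a = aeval x P / aeval x Q := by
    intro a
    have hz : z a ∈ IntermediateField.adjoin ℂ (Set.range x) := by
      rw [hx]
      exact IntermediateField.mem_top
    obtain ⟨P, Q, h⟩ := (IntermediateField.mem_adjoin_range_iff ℂ x (z a)).mp hz
    by_cases hQ : aeval x Q = 0
    · refine ⟨0, 1, ?_, ?_⟩
      · rw [map_one]; exact one_ne_zero
      · rw [h, hQ, div_zero, map_zero, zero_div]
    · exact ⟨P, Q, hQ, h⟩
  choose P Q hQ hz using h1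
  refine ⟨∏ b, Q b, fun a => P a * ∏ b ∈ Finset.univ.erase a, Q b, ?_, fun a => ?_⟩
  · rw [map_prod]
    exact Finset.prod_ne_zero_iff.2 fun b _ => hQ b
  · rw [← Finset.mul_prod_erase Finset.univ Q (Finset.mem_univ a), map_mul, map_mul, hz a]
    have h2 : aeval x (∏ b ∈ Finset.univ.erase a, Q b) ≠ 0 := by
      rw [map_prod]
      exact Finset.prod_ne_zero_iff.2 fun b _ => hQ b
    have h3 := hQ a
    field_simp

/-- weighted homogeneous polynomials -/
theorem wh_aeval {n r : ℕ} {X : Cov n r} {m : ℕ} {B : Poly n r} {D : ℕ} (hB : WH X m B D)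
    {M : Type} [Field M] [Algebra ℂ M] (c : M) (t : Fin (n + 1) → M) (w : Fin r → M) :
    aeval (Sum.elim (fun i => c * t i) (fun j => c ^ X.wt m j * w j)) B =
      c ^ D * aeval (Sum.elim t w) B := by
  have h0 : ∀ a : Fin (n + 1) ⊕ Fin r,
      Sum.elim (fun i => c * t i) (fun j => c ^ X.wt m j * w j) a =
        c ^ (Sum.elim (fun _ => 1) (X.wt m) a) * Sum.elim t w a := by
    rintro (i | j)
    · simp
    · simp
  rw [aeval_def, aeval_def, eval₂_eq', eval₂_eq', Finset.mul_sum]
  refine Finset.sum_congr rfl fun α hα => ?_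
  have h1 : ∑ a, α a * (Sum.elim (fun _ => 1) (X.wt m) a) = D := by
    have := hB (mem_support_iff.1 hα)
    rw [← this, Finsupp.weight_apply, Finsupp.sum_fintype _ _ (by simp)]
    simp
  rw [← h1, ← Finset.prod_pow_eq_pow_sum]
  have h2 : ∀ a, (Sum.elim (fun i => c * t i) (fun j => c ^ X.wt m j * w j) a) ^ α a =
      c ^ (α a * (Sum.elim (fun _ => 1) (X.wt m) a)) * (Sum.elim t w a) ^ α a := by
    intro a
    rw [h0, mul_pow, ← pow_mul, mul_comm (α a)]
  rw [Finset.prod_congr rfl fun a _ => h2 a, Finset.prod_mul_distrib]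
  ring

theorem aeval_pow_aeval {n r : ℕ} (m : ℕ) (F : MvPolynomial (Fin (n + 1)) ℂ) {M : Type} [Field M]
    [Algebra ℂ M] (g : Fin (n + 1) ⊕ Fin r → M) :
    aeval g (aeval (fun i => (MvPolynomial.X (Sum.inl i) : Poly n r) ^ m) F) =
      aeval (fun i => g (Sum.inl i) ^ m) F := by
  rw [comp_aeval_apply]
  congr 2
  funext i
  rw [map_pow, aeval_X]

/-- the projective case: from the linear bound to all projective varieties with the same function
field -/
theorem t_fcb : St_fcb := by
  classical
  intro n r X m hm hem hG L _ _ t w hZ hLin N y hy hgen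
  obtain ⟨B0, D, hB0, hB0ne, A, hA⟩ := hLin
  obtain ⟨i0, hi0⟩ : ∃ i0, y i0 ≠ 0 := Function.ne_iff.1 hy
  have hq : X.q = 0 := by
    have h1 := X.hG
    rw [hG] at h1
    exact h1.inj_right (isHomogeneous_one _ _) one_ne_zero
  have ht0 := hZ.ne
  -- the affine coordinates
  set y' : Fin (N + 1) → L := fun i => y i / y i0 with hy'
  have hy'gen : IntermediateField.adjoin ℂ (Set.range y') = ⊤ := by
    rw [eq_top_iff, ← hgen]
    unfold coords
    rw [IntermediateField.adjoin_le_iff]
    rintro z ⟨i, j, hj, rfl⟩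
    have e : y i / y j = y' i / y' j := by
      simp only [hy']
      field_simp
    rw [e]
    exact div_mem (IntermediateField.subset_adjoin _ _ ⟨i, rfl⟩)
      (IntermediateField.subset_adjoin _ _ ⟨j, rfl⟩)
  set x : Fin (n + 1) ⊕ Fin r → L :=
    Sum.elim (fun i => t i / t 0) (fun j => w j / t 0 ^ X.wt m j) with hx
  have hxgen : IntermediateField.adjoin ℂ (Set.range x) = ⊤ := by
    rw [hx, Set.Sum.elim_range]
    exact hZ.gen
  have hxt : ∀ (B : Poly n r) (D : ℕ), WH X.toCov m B D →
      aeval (Sum.elim t w) B = t 0 ^ D * aeval x B := by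
    intro B D hB
    rw [hx, ← wh_aeval hB]
    congr 1
    congr 1
    funext a
    rcases a with i | j
    · simp only [Sum.elim_inl]
      field_simp
    · simp only [Sum.elim_inr]
      field_simp
  obtain ⟨Q, R, hQ, hR⟩ := common y' hy'gen x
  obtain ⟨Q2, R2, hQ2, hR2⟩ := common x hxgen y'
  have hxR : (fun a => aeval y' (R a) / aeval y' Q) = x := funext fun a => (hR a).symm
  obtain ⟨K0, B0', hB0'⟩ := clear Q R B0
  obtain ⟨K2, Q2', hQ2'⟩ := clear Q R Q2
  obtain ⟨KH, H, hHh, hH⟩ := homog i0 (Q * B0' * Q2')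
  set wt : Fin (n + 1) ⊕ Fin r → ℕ := Sum.elim (fun _ => 1) (X.wt m) with hwt
  set E : ℕ := Finset.univ.sup fun i => (R2 i).support.sup fun α => ∑ a, α a * wt a with hE
  refine ⟨MvPolynomial.X i0 * H, ⟨1 + KH, (isHomogeneous_X _ _).mul hHh⟩, ?_, E * A, ?_⟩
  · unfold val
    rw [map_mul, aeval_X, hH L y hi0]
    refine mul_ne_zero hi0 (mul_ne_zero (pow_ne_zero _ hi0) ?_)
    change aeval y' (Q * B0' * Q2') ≠ 0
    rw [map_mul, map_mul, hB0' L y' hQ, hQ2' L y' hQ, hxR]
    refine mul_ne_zero (mul_ne_zero hQ (mul_ne_zero (pow_ne_zero _ hQ) ?_))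
      (mul_ne_zero (pow_ne_zero _ hQ) hQ2)
    intro h
    apply hB0ne
    rw [hxt B0 D hB0, h, mul_zero]
  · intro M _ _ _ f hf hfG
    unfold val at hfG
    rw [map_mul, aeval_X] at hfG
    have hfi0 : f i0 ≠ 0 := left_ne_zero_of_mul hfG
    have hfH := right_ne_zero_of_mul hfG
    rw [hH M f hfi0] at hfH
    set f' : Fin (N + 1) → M := fun i => f i / f i0 with hf'
    have h1 : aeval f' (Q * B0' * Q2') ≠ 0 := right_ne_zero_of_mul hfH
    rw [map_mul, map_mul] at h1
    have hQf : aeval f' Q ≠ 0 := left_ne_zero_of_mul (left_ne_zero_of_mul h1)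
    have hBf : aeval f' B0' ≠ 0 := right_ne_zero_of_mul (left_ne_zero_of_mul h1)
    have hQ2f : aeval f' Q2' ≠ 0 := right_ne_zero_of_mul h1
    have hsp : Sp y' f' := sp_of_onVar hf hi0 hfi0
    set z : Fin (n + 1) ⊕ Fin r → M := fun a => aeval f' (R a) / aeval f' Q with hz
    have hspz : Sp x z := by
      have h2 := hsp.ratio Q R hQ hQf
      rw [hxR] at h2
      exact h2
    rw [hB0' M f' hQf] at hBf
    rw [hQ2' M f' hQf] at hQ2f
    have hBz : aeval z B0 ≠ 0 := right_ne_zero_of_mul hBf
    have hQz : aeval z Q2 ≠ 0 := right_ne_zero_of_mul hQ2f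
    -- the direct map
    have hdir : ∀ i, aeval z Q2 * f' i = aeval z (R2 i) := by
      intro i
      obtain ⟨K3, R3, hR3⟩ := clear Q R (R2 i)
      have h2 : aeval y' (Q ^ K3 * Q2' * MvPolynomial.X i - Q ^ K2 * R3) = 0 := by
        rw [map_sub, map_mul, map_mul, map_mul, map_pow, map_pow, aeval_X, hQ2' L y' hQ,
          hR3 L y' hQ, hxR, hR2 i]
        field_simp
        ring
      have h3 := hsp _ h2
      rw [map_sub, map_mul, map_mul, map_mul, map_pow, map_pow, aeval_X, hQ2' M f' hQf,
        hR3 M f' hQf] at h3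
      have h4 : aeval f' Q ^ (K3 + K2) * (aeval z Q2 * f' i - aeval z (R2 i)) = 0 := by
        rw [← h3]
        ring
      exact sub_eq_zero.1 ((mul_eq_zero.1 h4).resolve_left (pow_ne_zero _ hQf))
    -- the point of the model
    set u : Fin (n + 1) → M := fun i => z (Sum.inl i) with hu
    set v : Fin r → M := fun j => z (Sum.inr j) with hv
    have huv : Sum.elim u v = z := by
      funext a
      rcases a with i | j <;> rfl
    have hu0 : u 0 = 1 := by
      have h2 : aeval x (MvPolynomial.X (Sum.inl 0) - 1 : Poly n r) = 0 := by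
        rw [map_sub, aeval_X, map_one]
        simp only [hx, Sum.elim_inl]
        rw [div_self ht0, sub_self]
      have h3 := hspz _ h2
      rw [map_sub, aeval_X, map_one] at h3
      exact sub_eq_zero.1 h3
    have hmap : MapTo X.toCov m t w ∅ u v := by
      refine ⟨⟨0, by rw [hu0]; exact one_ne_zero⟩, ?_, ?_, ?_⟩
      · intro B D hB hB0
        rw [huv]
        apply hspz
        rw [hxt B D hB] at hB0
        exact (mul_eq_zero.1 hB0).resolve_left (pow_ne_zero _ ht0)
      · rw [hG, map_one]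
        exact one_ne_zero
      · intro P _
        rw [hG, hq, map_one, P.ord_one]
        simp
    have hbd := hA M ∅ u v hmap (by rw [huv]; exact hBz)
    rw [Finset.card_empty, Nat.cast_zero, add_zero] at hbd
    -- the heights
    have hune : ∃ i, u i ≠ 0 := ⟨0, by rw [hu0]; exact one_ne_zero⟩
    have hp0 : ∀ P : Place ℂ M, pord P u ≤ 0 := by
      intro P
      have h2 := pord_le P (f := u) (j := 0) (by rw [hu0]; exact one_ne_zero)
      rwa [hu0, P.ord_one] at h2
    have hge : ∀ (P : Place ℂ M) (a : Fin (n + 1) ⊕ Fin r), Ge P (wt a * pord P u) (z a) := by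
      intro P a
      rcases a with i | j
      · simp only [hwt, Sum.elim_inl, Nat.cast_one, one_mul]
        exact ge_pord P u i
      · simp only [hwt, Sum.elim_inr]
        change Ge P (X.wt m j * pord P u) (v j)
        -- the equation
        have h2 : v j ^ X.e j = aeval (fun i => u i ^ m) (X.F j) := by
          have h3 : aeval x (MvPolynomial.X (Sum.inr j) ^ X.e j -
              aeval (fun i => MvPolynomial.X (Sum.inl i) ^ m) (X.F j) : Poly n r) = 0 := by
            rw [map_sub, map_pow, aeval_X]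
            rw [aeval_pow_aeval]
            simp only [hx, Sum.elim_inl, Sum.elim_inr]
            have h5 : X.wt m j * X.e j = m * X.d j := by
              unfold Cov.wt
              exact Nat.div_mul_cancel (Dvd.dvd.mul_right (hem j) _)
            have h6 := Pool.Agent.W602.GT.val_smul (X.hF j) ((t 0 ^ m)⁻¹) (fun i => t i ^ m)
            unfold val at h6
            have h7 : (fun i => (t i / t 0) ^ m) = fun i => (t 0 ^ m)⁻¹ * t i ^ m := by
              funext i
              rw [div_pow]
              field_simp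
            rw [h7, h6, ← hZ.eqn j, div_pow, ← pow_mul, h5, pow_mul, inv_pow]
            field_simp
            ring
          have h8 := hspz _ h3
          rw [map_sub, map_pow, aeval_X] at h8
          rw [aeval_pow_aeval] at h8
          exact sub_eq_zero.1 h8
        by_cases hv0 : v j = 0
        · exact Or.inl hv0
        right
        have h3 := ge_form (F := ℂ) P (fun i => u i ^ m) (X.hF j) (fun α _ => Ge.const _)
        rw [← h2] at h3
        have h4 := h3.resolve_left (pow_ne_zero _ hv0)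
        rw [P.ord_pow] at h4
        have h5 : (m : ℤ) * pord P u ≤ pord P (fun i => u i ^ m) := by
          obtain ⟨k, hk, hk'⟩ := exists_pord P (f := fun i => u i ^ m)
            ⟨0, by rw [hu0, one_pow]; exact one_ne_zero⟩
          rw [← hk', P.ord_pow]
          have hk0 : u k ≠ 0 := by
            intro h
            apply hk
            rw [h, zero_pow hm.ne']
          exact mul_le_mul_of_nonneg_left (pord_le P hk0) (by positivity)
        have h6 : X.wt m j * X.e j = m * X.d j := by
          unfold Cov.wt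
          exact Nat.div_mul_cancel (Dvd.dvd.mul_right (hem j) _)
        have h7 : (X.d j : ℤ) * (m * pord P u) ≤ X.e j * P.ord (v j) :=
          le_trans (mul_le_mul_of_nonneg_left h5 (by positivity)) h4
        have h8 : ((X.wt m j : ℤ) * X.e j) = m * X.d j := by exact_mod_cast h6
        have h9 : (X.e j : ℤ) * (X.wt m j * pord P u) ≤ X.e j * P.ord (v j) := by
          calc (X.e j : ℤ) * (X.wt m j * pord P u) = (X.wt m j * X.e j) * pord P u := by ring
            _ = X.d j * (m * pord P u) := by rw [h8]; ring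
            _ ≤ _ := h7
        exact le_of_mul_le_mul_left h9 (by exact_mod_cast X.he j)
    have hgeR : ∀ (P : Place ℂ M) (i : Fin (N + 1)), Ge P (E * pord P u) (aeval z (R2 i)) := by
      intro P i
      rw [aeval_def, eval₂_eq']
      refine Ge.sum _ _ fun α hα => ?_
      have h2 := (Ge.const (P := P) ((R2 i).coeff α)).mul (Ge.prod Finset.univ
        (fun a => z a ^ α a) (fun a => α a * (wt a * pord P u)) (fun a _ => (hge P a).pow (α a)))
      refine h2.mono ?_
      have h3 : ∑ a, α a * wt a ≤ E := by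
        refine le_trans ?_ (Finset.le_sup (f := fun i => (R2 i).support.sup fun α =>
          ∑ a, α a * wt a) (Finset.mem_univ i))
        exact Finset.le_sup (f := fun α : (Fin (n + 1) ⊕ Fin r) →₀ ℕ => ∑ a, α a * wt a) hα
      have h4 : ∑ a, (α a : ℤ) * (wt a * pord P u) = (∑ a, α a * wt a : ℕ) * pord P u := by
        push_cast
        rw [Finset.sum_mul]
        exact Finset.sum_congr rfl fun a _ => by ring
      rw [h4, zero_add]
      exact mul_le_mul_of_nonpos_right (by exact_mod_cast h3) (hp0 P)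
    have hpt : ∀ P : Place ℂ M, P.ord (f i0) - P.ord (aeval z Q2) + E * pord P u ≤ pord P f := by
      intro P
      obtain ⟨k, hk, hk'⟩ := exists_pord P (f := f) ⟨i0, hfi0⟩
      have h2 : f k * aeval z Q2 = f i0 * aeval z (R2 k) := by
        rw [← hdir k]
        simp only [hf']
        field_simp
      have h3 : aeval z (R2 k) ≠ 0 := by
        intro h
        rw [h, mul_zero] at h2
        exact (mul_ne_zero hk hQz) h2
      have h4 := congrArg P.ord h2
      rw [P.ord_mul hk hQz, P.ord_mul hfi0 h3, hk'] at h4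
      have h5 := (hgeR P k).resolve_left h3
      linarith
    have hE' : pht ℂ f ≤ E * pht ℂ u := by
      obtain ⟨T1, hT1⟩ := exists_supp (k := ℂ) (Finset.univ : Finset (Fin (N + 1))) f
      obtain ⟨T2, hT2⟩ := exists_supp (k := ℂ) (Finset.univ : Finset (Fin (n + 1))) u
      obtain ⟨T3, hT3⟩ := exists_supp (k := ℂ) (Finset.univ : Finset Unit) (fun _ => aeval z Q2)
      set T := T1 ∪ T2 ∪ T3 with hT
      have e1 : ∑ P ∈ T, P.ord (f i0) = 0 := sum_ord_finset (f i0) T fun P hP =>
        Finset.mem_union_left _ (Finset.mem_union_left _ (hT1 i0 (Finset.mem_univ _) P hP))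
      have e2 : ∑ P ∈ T, P.ord (aeval z Q2) = 0 := sum_ord_finset (aeval z Q2) T fun P hP =>
        Finset.mem_union_right _ (hT3 () (Finset.mem_univ _) P hP)
      have e3 : ∑ᶠ P : Place ℂ M, pord P f = ∑ P ∈ T, pord P f := by
        apply finsum_eq_sum_of_support_subset
        intro P hP
        obtain ⟨k, -, hk'⟩ := exists_pord P (f := f) ⟨i0, hfi0⟩
        exact Finset.mem_coe.2 (Finset.mem_union_left _ (Finset.mem_union_left _
          (hT1 k (Finset.mem_univ _) P (by rw [hk']; exact hP))))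
      have e4 : ∑ᶠ P : Place ℂ M, pord P u = ∑ P ∈ T, pord P u := by
        apply finsum_eq_sum_of_support_subset
        intro P hP
        obtain ⟨k, -, hk'⟩ := exists_pord P (f := u) hune
        exact Finset.mem_coe.2 (Finset.mem_union_left _ (Finset.mem_union_right _
          (hT2 k (Finset.mem_univ _) P (by rw [hk']; exact hP))))
      unfold pht
      rw [e3, e4]
      have e5 := Finset.sum_le_sum fun P (_ : P ∈ T) => hpt P
      rw [Finset.sum_add_distrib, Finset.sum_sub_distrib, e1, e2, ← Finset.mul_sum] at e5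
      linarith
    calc pht ℂ f ≤ E * pht ℂ u := hE'
      _ ≤ E * (A * max (canDeg ℂ M) 0) := mul_le_mul_of_nonneg_left hbd (by positivity)
      _ = ((E * A : ℕ) : ℤ) * max (canDeg ℂ M) 0 := by push_cast; ring

end Pool.Agent.Y824.FG
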