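import Pool.Agent.Y192.FA.GDefs

/-!
The degree of a map and the heights of the quotients of the coordinates.
-/

set_option autoImplicit false

namespace Pool.Agent.Y824.FG

open FF Pool.Agent.W603.LV Pool.Agent.W603.PV Pool.Agent.Y192.FA

/-- the degree of a map and the heights of the quotients of the coordinates -/
theorem t_fpht : St_fpht := by
  classical
  intro n m hm M _ _ _ u hu
  obtain ⟨T, hT⟩ := exists_supp (k := ℂ) (Finset.univ : Finset (Fin (n + 1))) u
  have hT' : ∀ i, ∀ P : Place ℂ M, P.ord (u i) ≠ 0 → P ∈ T := fun i => hT i (Finset.mem_univ i)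
  have hpo : ∀ P : Place ℂ M, ∃ j, P.ord (u j) = pord P u := fun P => by
    obtain ⟨j, -, hj⟩ := exists_pord P (f := u) ⟨0, hu 0⟩
    exact ⟨j, hj⟩
  have h1 : ∑ᶠ P : Place ℂ M, pord P u = ∑ P ∈ T, pord P u := by
    apply finsum_eq_sum_of_support_subset
    intro P hP
    obtain ⟨j, hj⟩ := hpo P
    exact hT' j P (by rw [hj]; exact hP)
  have h2 : ∑ P ∈ T, P.ord (u 0) = 0 := sum_ord_finset (u 0) T (hT' 0)
  have h3 : pht ℂ u = ∑ P ∈ T, (P.ord (u 0) - pord P u) := by
    unfold pht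
    rw [h1, Finset.sum_sub_distrib, h2, zero_sub]
  have h4 : ∀ (P : Place ℂ M) (i : Fin n),
      P.ord ((u i.succ / u 0) ^ m) = m * (P.ord (u i.succ) - P.ord (u 0)) := fun P i => by
    rw [P.ord_pow, P.ord_div (hu _) (hu _)]
  have h5 : ∀ i : Fin n, ∑ᶠ z : Place ℂ M, |z.ord ((u i.succ / u 0) ^ m)| =
      ∑ z ∈ T, |z.ord ((u i.succ / u 0) ^ m)| := by
    intro i
    apply finsum_eq_sum_of_support_subset
    intro P hP
    by_contra hcon
    have a1 : P.ord (u i.succ) = 0 := by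
      by_contra h
      exact hcon (hT' _ P h)
    have a2 : P.ord (u 0) = 0 := by
      by_contra h
      exact hcon (hT' _ P h)
    apply hP
    change |P.ord ((u i.succ / u 0) ^ m)| = 0
    rw [h4, a1, a2, sub_self, mul_zero, abs_zero]
  rw [h3, Finset.sum_congr rfl fun i _ => h5 i, Finset.sum_comm, Finset.mul_sum]
  refine Finset.sum_le_sum fun P _ => ?_
  have hnn : 0 ≤ ∑ i : Fin n, |P.ord ((u i.succ / u 0) ^ m)| :=
    Finset.sum_nonneg fun i _ => abs_nonneg _
  obtain ⟨j, hj⟩ := hpo P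
  rw [← hj]
  refine Fin.cases ?_ (fun i => ?_) j
  · rw [sub_self, mul_zero]
    exact hnn
  · refine le_trans ?_ (Finset.single_le_sum (f := fun i : Fin n =>
      |P.ord ((u i.succ / u 0) ^ m)|) (fun i _ => abs_nonneg _) (Finset.mem_univ i))
    change _ ≤ |P.ord ((u i.succ / u 0) ^ m)|
    rw [h4]
    have h6 : (m : ℤ) * (P.ord (u 0) - P.ord (u i.succ)) =
        -((m : ℤ) * (P.ord (u i.succ) - P.ord (u 0))) := by ring
    rw [h6]
    exact neg_le_abs _

end Pool.Agent.Y824.FG
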